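import Mathlib

/-!
# Campaign CCQ (captain helper42): a lower bound for the quenched connective constant of the UIPQ (MP_0dee97_pr)

The uniform infinite planar quadrangulation in the construction of Curien, Menard and Miermont: the infinite
labelled plane tree with one end (critical geometric Galton-Watson tree conditioned to survive, rooted at a corner)
is coded by its contour, a two sided simple random walk; the label increments along the edges are independent and
uniform in `{-1, 0, 1}`; every corner `e` is joined by an edge to its successor, the first corner after `e` whose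
label is smaller by one.

Theorem: almost surely, for every vertex `x` and every `s < somos = 1.6616...` the number of self-avoiding walks with
`n` steps from `x` is at least `s ^ n` for all large `n`.
-/

set_option autoImplicit false

namespace Pool.Agent.CCQ

open MeasureTheory

/-- A letter: the direction of a contour step (`true`: to a new child, `false`: back to the parent) and the
increment of the label along the edge to the new child (`0, 1, 2` for `-1, 0, 1`; not used for `false`). -/
abbrev Letter := Bool × Fin 3

/-- Two sided sequences of letters. -/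
abbrev Om := ℤ → Letter

/-- The uniform law on the letters. -/
noncomputable def pL : Measure Letter := (PMF.uniformOfFintype Letter).toMeasure

/-- The law of a two sided sequence of independent uniform letters. -/
noncomputable def P : Measure Om := Measure.infinitePi fun _ => pL

/-- The step of the contour. -/
def st (ω : Om) (i : ℤ) : ℤ := if (ω i).1 then 1 else -1

/-- The label increment of a letter. -/
def inc (ω : Om) (i : ℤ) : ℤ := ((ω i).2 : ℕ) - 1

/-- The two sided sum `∑_{0 ≤ k < i} f k` (`- ∑_{i ≤ k < 0} f k` for negative `i`). -/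
noncomputable def tsm (f : ℤ → ℤ) (i : ℤ) : ℤ := ∑ k ∈ Finset.Ico 0 i, f k - ∑ k ∈ Finset.Ico i 0, f k

/-- The contour (height): a two sided simple random walk with `H 0 = 0`.  The times `i` are the corners of the
tree. -/
noncomputable def H (ω : Om) (i : ℤ) : ℤ := tsm (st ω) i

/-- The corners `i` and `j` belong to the same vertex of the tree. -/
def Same (ω : Om) (i j : ℤ) : Prop :=
  H ω i = H ω j ∧ ∀ k, min i j ≤ k → k ≤ max i j → H ω i ≤ H ω k

/-- The time between `i` and the last visit of the parent of the vertex of `i` before `i` (which is the time of the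
up step to the vertex of `i`). -/
noncomputable def bk (ω : Om) (i : ℤ) : ℕ := sInf {n : ℕ | H ω (i - n) = H ω i - 1}

/-- The difference of the labels at the times `i + 1` and `i`: for an up step the label increment of the new edge,
for a down step minus the increment of the edge which is left, whose letter is at the time of its up step. -/
noncomputable def dl (ω : Om) (i : ℤ) : ℤ := if (ω i).1 then inc ω i else - inc ω (i - bk ω i)

/-- The labels of the corners, `lab 0 = 0`. -/
noncomputable def lab (ω : Om) (i : ℤ) : ℤ := tsm (dl ω) i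

/-- `s` is the successor of `e`: the first corner after `e` with label `lab e - 1`. -/
def IsSucc (ω : Om) (e s : ℤ) : Prop :=
  e < s ∧ lab ω s = lab ω e - 1 ∧ ∀ k, e < k → k < s → lab ω k ≠ lab ω e - 1

/-- The edge `e` of the quadrangulation (edges are indexed by corners: `e` is joined to its successor) joins the
vertices of the corners `x` and `y`. -/
def Joins (ω : Om) (e x y : ℤ) : Prop :=
  ∃ s, IsSucc ω e s ∧ ((Same ω x e ∧ Same ω y s) ∨ (Same ω y e ∧ Same ω x s))

/-- The self-avoiding walks with `n` steps from the vertex of the corner `x`, as sequences of edges. -/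
def SAW (ω : Om) (x : ℤ) (n : ℕ) : Set (Fin n → ℤ) :=
  {f | ∃ v : Fin (n + 1) → ℤ, Same ω x (v 0) ∧ (∀ k : Fin n, Joins ω (f k) (v k.castSucc) (v k.succ)) ∧
    ∀ a b, Same ω (v a) (v b) → a = b}

/-- The constant `∏_{d ≥ 1} d ^ (1 / 2 ^ d) = 1.6616...` of Somos. -/
noncomputable def somos : ℝ := Real.exp (∑' d : ℕ, Real.log (d + 1) / 2 ^ (d + 1))

/-- The visits of the vertex of the corner `t` from time `t` on. -/
def Vis (ω : Om) (t : ℤ) : Set ℤ := {c | t ≤ c ∧ H ω c = H ω t ∧ ∀ k, t ≤ k → k ≤ c → H ω t ≤ H ω k}

/-- The number of visits. -/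
noncomputable def D (ω : Om) (t : ℤ) : ℕ := (Vis ω t).ncard

open scoped Classical in
/-- The number of corners `c` in `Vis t` with successor `s`. -/
noncomputable def N (ω : Om) (t s : ℤ) : ℕ := ((Finset.Ico t s).filter fun c => c ∈ Vis ω t ∧ IsSucc ω c s).card

open scoped ENNReal

/-- Forward weights: the total weight `∏ h (D t_k)` (`k < n`) of the sequences `0 = t_0, c_0, t_1, c_1, …, t_n = t` with
`c_k ∈ Vis t_k` and `t_(k+1)` the successor of `c_k`. -/
noncomputable def A (h : ℕ → ℝ≥0∞) (ω : Om) : ℕ → ℤ → ℝ≥0∞
  | 0, t => if t = 0 then 1 else 0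
  | n + 1, t => ∑ s ∈ Finset.Ico 0 t, A h ω n s * h (D ω s) * N ω s t

/-- Backward weights: the same with an arbitrary first corner `t` and free last corner. -/
noncomputable def B (h : ℕ → ℝ≥0∞) (ω : Om) : ℕ → ℤ → ℝ≥0∞
  | 0, _ => 1
  | n + 1, t => h (D ω t) * ∑' s : ℤ, (N ω t s : ℝ≥0∞) * B h ω n s

/-- Insertion of the word `b` at time `c`. -/
def ins (c : ℤ) {L : ℕ} (b : Fin L → Letter) (ω : Om) : Om := fun i =>
  if h : c ≤ i ∧ i < c + L then b ⟨(i - c).toNat, by omega⟩ else if i < c then ω i else ω (i - L)

/-- The height along a word. -/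
def hw {L : ℕ} (b : Fin L → Letter) (i : ℕ) : ℤ :=
  ∑ k : Fin L, if (k : ℕ) < i then (if (b k).1 then 1 else -1) else 0

/-- Excursion words: they start and end at the same height and stay strictly above it in between. -/
def Exc (L : ℕ) : Set (Fin L → Letter) :=
  {b | 0 < L ∧ hw b L = 0 ∧ ∀ i, 0 < i → i < L → 0 < hw b i}

/-- The cylinder of the sequences with the word `b` at time `c`. -/
def Cyl (c : ℤ) {L : ℕ} (b : Fin L → Letter) : Set Om := {ω | ∀ i : Fin L, ω (c + i) = b i}

/-- The weight `d ^ (-(1 + θ))` (for `d ≥ 1`). -/
noncomputable def hh (θ : ℝ) (d : ℕ) : ℝ≥0∞ := ENNReal.ofReal (((max d 1 : ℕ) : ℝ) ^ (-(1 + θ)))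

/-- Almost sure properties: every vertex is left on both sides, and every corner has a successor. -/
def Good (ω : Om) : Prop :=
  (∀ t, ∃ x, t < x ∧ H ω x = H ω t - 1) ∧ (∀ t, ∃ x, x < t ∧ H ω x = H ω t - 1) ∧
    (∀ e, ∃ s, IsSucc ω e s) ∧ ∀ t, ∃ k, k < t ∧ lab ω k = lab ω t

end Pool.Agent.CCQ
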